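import Pool.Agent.H43.Erw2

set_option autoImplicit false

namespace Pool.Agent.Results.MP_f4733e_pr.ZeroSpeed

open Filter Finset Function MeasureTheory ProbabilityTheory Topology Pool.Agent.H43.Erw1
open scoped ENNReal

noncomputable section

/-- The unit vector `+e_i` (for `true`) or `-e_i` (for `false`). -/
def vec {d : ℕ} (e : Fin d × Bool) : Fin d → ℤ := Pi.single e.1 (if e.2 then 1 else -1)

variable {d : ℕ}

lemma vec_inj : Injective (vec (d := d)) := by
  rintro ⟨i, a⟩ ⟨j, b⟩ h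
  have := congrFun h i
  by_cases c : i = j
  · subst c; cases a <;> cases b <;> simp_all [vec]
  · cases a <;> simp_all [vec]

def W : List (Fin d × Bool) → (ℕ → Fin d × Bool → ℝ) → ℝ
  | [], _ => 1
  | e :: s, a => a s.length e * W s a

lemma W_meas : ∀ s : List (Fin d × Bool), Measurable (W s)
  | [] => measurable_const
  | e :: s => by
      have := W_meas s
      change Measurable fun a : ℕ → Fin d × Bool → ℝ => a s.length e * W s a
      fun_prop

lemma W_bd {a : ℕ → Fin d × Bool → ℝ} (h0 : ∀ i e, 0 ≤ a i e) (h1 : ∀ i, ∑ e, a i e = 1) :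
    ∀ s, 0 ≤ W s a ∧ W s a ≤ 1
  | [] => ⟨zero_le_one, le_rfl⟩
  | e :: s => ⟨mul_nonneg (h0 _ _) (W_bd h0 h1 s).1, mul_le_one₀ ((single_le_sum (fun e _ => h0 _ e) (mem_univ e)).trans_eq
      (h1 _)) (W_bd h0 h1 s).1 (W_bd h0 h1 s).2⟩

lemma prod_upd {V E : Type} [DecidableEq V] {F : Finset V} {y : V} (hy : y ∈ F) (f : V → List E → ℝ) {σ : V → List E}
    {e : E} {r : ℝ} (h : f y (e :: σ y) = r * f y (σ y)) : ∏ z ∈ F, f z (upd σ y e z) = r * ∏ z ∈ F, f z (σ z) := by
  rw [← mul_prod_erase F _ hy, ← mul_prod_erase F (fun z => f z (σ z)) hy, upd, update_self, h, mul_assoc,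
    prod_congr rfl fun z hz => by rw [update_of_ne (ne_of_mem_erase hz)]]

lemma pat_len {V E : Type} [AddCommGroup V] [DecidableEq V] [Fintype E] (M : Mod V E) (ξ : ℕ → E) (z : V) :
    ∀ n, (M.pat ξ n z).length = #{i ∈ range n | M.ps ξ i = z}
  | 0 => rfl
  | n + 1 => by
      rw [range_add_one, filter_insert, Mod.pat]
      split_ifs with c
      · rw [card_insert_of_notMem (by simp), ← pat_len M ξ z n, ← c, upd, update_self, List.length_cons]
      · rw [upd, update_of_ne (Ne.symm c), pat_len M ξ z n]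

def mk (p : List (Fin d × Bool) → Fin d × Bool → ℝ) (h0 : ∀ s e, 0 < p s e) (h1 : ∀ s, ∑ e, p s e = 1)
    (k : Fin d × Bool) : Mod (Fin d → ℤ) (Fin d × Bool) where
  vec := vec
  φ := (if k.2 then 1 else -1 : ℤ) • Pi.evalAddMonoidHom _ k.1
  p := p
  pos := h0
  sum := h1
  bd e := by
    simp only [vec, AddMonoidHom.smul_apply, Pi.evalAddMonoidHom_apply, Pi.single_apply]
    split_ifs <;> simp
  up := ⟨k, by
    simp only [vec, AddMonoidHom.smul_apply, Pi.evalAddMonoidHom_apply, Pi.single_eq_same]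
    split_ifs <;> simp⟩
  lat v hv := by
    have h : v k.1 = 0 := by
      simp only [AddMonoidHom.smul_apply, Pi.evalAddMonoidHom_apply] at hv
      split_ifs at hv <;> simpa using hv
    rw [← univ_sum_single v]
    refine sum_induction _ (fun v => ∃ l : List (Fin d × Bool), (∀ e ∈ l, ((if k.2 then 1 else -1 : ℤ) •
      Pi.evalAddMonoidHom (fun _ => ℤ) k.1) (vec e) = 0) ∧ (l.map vec).sum = v)
      (fun a b ⟨l, h1, h2⟩ ⟨l', h3, h4⟩ => ⟨l ++ l', List.forall_mem_append.2 ⟨h1, h3⟩, by simp [h2, h4]⟩)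
      ⟨[], by simp, rfl⟩ fun j _ => ⟨List.replicate (v j).natAbs (j, decide (0 ≤ v j)), fun e he => ?_, ?_⟩
    · obtain ⟨h2, rfl⟩ := List.mem_replicate.1 he
      have : k.1 ≠ j := fun c => h2 (by rw [← c, h]; rfl)
      simp only [vec, AddMonoidHom.smul_apply, Pi.evalAddMonoidHom_apply, Pi.single_eq_of_ne this, smul_zero]
    · simp only [List.map_replicate, List.sum_replicate, vec, decide_eq_true_eq, ← Pi.single_smul]
      congr 1
      split_ifs <;> simp only [nsmul_eq_mul] <;> omega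

def dc (k : Fin d × Bool) (q : (Fin d → ℤ) × (Fin d → ℤ)) : Fin d × Bool :=
  open Classical in if h : ∃ e, q.1 = q.2 + vec e then h.choose else k

def dec (k : Fin d × Bool) (X : ℕ → Fin d → ℤ) (n : ℕ) : Fin d × Bool := dc k (X (n + 1), X n)

lemma pr_meas (n : ℕ) : Measurable fun X : ℕ → Fin d → ℤ => (X (n + 1), X n) := by fun_prop

lemma dec_meas (k : Fin d × Bool) : Measurable (dec k) := measurable_pi_lambda _ fun n =>
  (measurable_of_countable (dc k)).comp (pr_meas n)

theorem result (d : ℕ) (Ω : Type) [MeasurableSpace Ω] (P : Measure Ω) [IsProbabilityMeasure P]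
    (c : (Fin d → ℤ) → Ω → ℕ → Fin d × Bool → ℝ) (hm : ∀ z, Measurable (c z))
    (h0 : ∀ z ω i e, 0 ≤ c z ω i e) (h1 : ∀ z ω i, ∑ e, c z ω i e = 1)
    (hind : iIndepFun c P) (hid : ∀ z, IdentDistrib (c z) (c 0) P P) (hel : ∀ z i e, ∀ᵐ ω ∂P, 0 < c z ω i e)
    (κ : Kernel Ω (ℕ → Fin d → ℤ)) [IsMarkovKernel κ] (hs : ∀ ω, κ ω {X | X 0 = 0} = 1)
    (hκ : ∀ ω n (x : ℕ → Fin d → ℤ) e, κ ω {X | (∀ j ≤ n, X j = x j) ∧ X (n + 1) = x n + vec e} =
      ENNReal.ofReal (c (x n) ω #{i ∈ range n | x i = x n} e) * κ ω {X | ∀ j ≤ n, X j = x j})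
    (ℓ : Fin d → ℝ) : ∀ᵐ X ∂(P.bind κ), ¬Tendsto (fun n => √(∑ i, (X n i : ℝ) ^ 2)) atTop atTop →
      Tendsto (fun n : ℕ => (∑ i, (X n i : ℝ) * ℓ i) / n) atTop (𝓝 0) := by
  have iW : ∀ s, Integrable (fun ω => W s (c 0 ω)) P := fun s => .of_bound ((W_meas s).comp (hm 0)).aestronglyMeasurable 1
    (.of_forall fun ω => by have := W_bd (h0 0 ω) (h1 0 ω) s; rw [Real.norm_of_nonneg this.1]; exact this.2)
  let w : List (Fin d × Bool) → ℝ := fun s => ∫ ω, W s (c 0 ω) ∂P
  have w0 : ∀ s, 0 < w s := fun s => by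
    have : ∀ᵐ ω ∂P, 0 < W s (c 0 ω) := by
      induction s with
      | nil => exact .of_forall fun _ => one_pos
      | cons e s ih => filter_upwards [ih, hel 0 s.length e] with ω a b using mul_pos b a
    refine (integral_pos_iff_support_of_nonneg_ae (this.mono fun _ => le_of_lt) (iW s)).2 (pos_iff_ne_zero.2 fun c => ?_)
    obtain ⟨x, h1, h2⟩ := (this.and (measure_eq_zero_iff_ae_notMem.1 c)).exists
    exact h2 h1.ne'
  have p0 : ∀ s e, 0 < w (e :: s) / w s := fun s e => div_pos (w0 _) (w0 _)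
  have p1 : ∀ s, ∑ e, w (e :: s) / w s = 1 := fun s => by
    rw [← sum_div, ← integral_finsetSum _ fun e _ => iW _, div_eq_one_iff_eq (w0 s).ne']
    simp only [W, ← sum_mul, h1, one_mul, w]
  have mC : ∀ n (x : ℕ → Fin d → ℤ), MeasurableSet {X : ℕ → Fin d → ℤ | ∀ j ≤ n, X j = x j} := fun n x => by measurability
  have mS : ∀ n (y : Fin d → ℤ), MeasurableSet {X : ℕ → Fin d → ℤ | X n = y} := fun n x => by measurability
  have a1 : ∀ᵐ X ∂(P.bind κ), X 0 = 0 := Measure.ae_comp_of_ae_ae (mS 0 0) (.of_forall fun ω =>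
    (prob_compl_eq_zero_iff (mS 0 0)).2 (hs ω))
  have a2 : ∀ n, ∀ᵐ X ∂(P.bind κ), ∃ e, X (n + 1) = X n + vec e := fun n => by
    refine Measure.ae_comp_of_ae_ae (pr_meas n
      (MeasurableSet.of_discrete (s := {q : (Fin d → ℤ) × (Fin d → ℤ) | ∃ e, q.1 = q.2 + vec e}))) (.of_forall fun ω => ?_)
    have : ∀ x : ℕ → Fin d → ℤ, κ ω ({X | ∀ j ≤ n, X j = x j} \ ⋃ e,
        {X | (∀ j ≤ n, X j = x j) ∧ X (n + 1) = x n + vec e}) = 0 := fun x => by
      have m : ∀ e, MeasurableSet {X : ℕ → Fin d → ℤ | (∀ j ≤ n, X j = x j) ∧ X (n + 1) = x n + vec e} := fun e =>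
        (mC n x).inter (mS _ _)
      rw [measure_sdiff (s₁ := {X | ∀ j ≤ n, X j = x j}) (Set.iUnion_subset fun e X h => h.1) (MeasurableSet.iUnion m).nullMeasurableSet (measure_ne_top _ _),
        measure_iUnion (fun a b h => Set.disjoint_left.2 fun X h1 h2 => h (vec_inj (add_left_cancel (h1.2.symm.trans h2.2)))) m,
        tsum_fintype]
      simp only [hκ]
      rw [← sum_mul, ← ENNReal.ofReal_sum_of_nonneg fun e _ => h0 _ _ _ e, h1]
      simp
    refine measure_mono_null (fun X hX => ?_) (measure_iUnion_null fun u : Fin (n + 1) → Fin d → ℤ =>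
      this fun j => if h : j < n + 1 then u ⟨j, h⟩ else 0)
    exact Set.mem_iUnion.2 ⟨fun j => X j, fun j hj => by rw [dif_pos (by omega)], fun h => hX ((Set.mem_iUnion.1 h).imp
      fun e h => by simpa using h.2)⟩
  have a3 : ∀ k, ∀ᵐ X ∂(P.bind κ), ∀ n, X (n + 1) = X n + vec (dec k X n) := fun k => by
    filter_upwards [ae_all_iff.2 a2] with X h n
    rw [dec, dc, dif_pos (h n)]
    exact (h n).choose_spec
  have a4 : ∀ k : Fin d × Bool, ∀ᵐ X ∂(P.bind κ), ¬Tendsto (fun n => (if k.2 then 1 else -1) * X n k.1) atTop atTop →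
      ∀ ε : ℝ, 0 < ε → ∀ᶠ n : ℕ in atTop, (((if k.2 then 1 else -1) * X n k.1 : ℤ) : ℝ) / n < ε := fun k => by
    let M := mk _ p0 p1 k
    have b1 : ∀ᵐ X ∂(P.bind κ), ∀ n, X n = M.ps (dec k X) n := by
      filter_upwards [a1, a3 k] with X h h' n
      induction n with
      | zero => exact h
      | succ n ih => rw [h', ih]; rfl
    have b2 : ∀ ξ (F : Finset (Fin d → ℤ)) n, (∀ j < n, M.ps ξ j ∈ F) →
        (P.bind κ).map (dec k) (cyl ξ n) = .ofReal (∏ z ∈ F, w (M.pat ξ n z)) := fun ξ F n hF => by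
      have d1 : ∀ ω, κ ω {X | ∀ j ≤ n, X j = M.ps ξ j} = .ofReal (∏ z ∈ F, W (M.pat ξ n z) (c z ω)) := fun ω => by
        induction n with
        | zero => simpa [Mod.pat, W, Mod.ps] using hs ω
        | succ n ih =>
          rw [Mod.pat, prod_upd (hF n (by omega)) (fun z s => W s (c z ω)) rfl, ENNReal.ofReal_mul (h0 _ _ _ _),
            ← ih fun j hj => hF j (by omega), pat_len, ← hκ]
          congr 1
          ext X
          exact ⟨fun h => ⟨fun j hj => h j (by omega), h (n + 1) le_rfl⟩, fun h j hj => hj.eq_or_lt.elim (· ▸ h.2)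
            fun c => h.1 j (by omega)⟩
      rw [Measure.map_apply (dec_meas k) (cyl_meas ξ n), measure_congr (t := {X | ∀ j ≤ n, X j = M.ps ξ j}),
        Measure.bind_apply (mC _ _) κ.aemeasurable, lintegral_congr d1, ← ofReal_integral_eq_lintegral_ofReal]
      · simp only [← prod_coe_sort F]
        rw [(hind.precomp (g := ((↑) : F → _)) Subtype.val_injective).integral_fun_prod_comp (fun z => (hm z).aemeasurable)
          fun z => (W_meas _).aestronglyMeasurable]
        exact congrArg _ (prod_congr rfl fun z _ => ((hid z.1).comp (W_meas (M.pat ξ n z))).integral_eq)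
      · exact .of_bound (Finset.measurable_fun_prod _ fun z _ => (W_meas _).comp (hm z)).aestronglyMeasurable 1
          (.of_forall fun ω => by
            rw [Real.norm_of_nonneg (prod_nonneg fun z _ => (W_bd (h0 z ω) (h1 z ω) _).1)]
            exact prod_le_one (fun z _ => (W_bd (h0 z ω) (h1 z ω) _).1) fun z _ => (W_bd (h0 z ω) (h1 z ω) _).2)
      · exact .of_forall fun ω => prod_nonneg fun z _ => (W_bd (h0 z ω) (h1 z ω) _).1
      · filter_upwards [b1, a3 k] with X h h'
        refine propext ⟨fun (c : dec k X ∈ cyl ξ n) j hj => (h j).trans (cyl_ps c j hj).1, fun c j hj => vec_inj ?_⟩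
        have := h' j
        rw [c j hj.le, c (j + 1) hj] at this
        exact (add_left_cancel this).symm
    have : IsProbabilityMeasure ((P.bind κ).map (dec k)) := Measure.isProbabilityMeasure_map (dec_meas k).aemeasurable
    have b3 : M.Law ((P.bind κ).map (dec k)) := fun ξ n => by
      have hF : ∀ j < n + 1, M.ps ξ j ∈ (range (n + 1)).image (M.ps ξ) := fun j hj => mem_image_of_mem _ (mem_range.2 hj)
      rw [b2 ξ _ _ hF, b2 ξ _ _ fun j hj => hF j (by omega), Mod.pat, prod_upd (hF n (by omega)) (fun _ s => w s)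
        (div_mul_cancel₀ _ (w0 _).ne').symm, ENNReal.ofReal_mul (p0 _ _).le]
      rfl
    filter_upwards [ae_of_ae_map (dec_meas k).aemeasurable (main b3), b1] with X h h'
    simp only [h']
    exact h
  filter_upwards [ae_all_iff.2 a4] with X h h'
  have b : ∀ k : Fin d × Bool, ¬Tendsto (fun n => (if k.2 then 1 else -1) * X n k.1) atTop atTop := fun k c =>
    h' (tendsto_atTop_mono (fun n => Real.le_sqrt_of_sq_le (le_trans (by split_ifs <;> simp)
      (single_le_sum (f := fun i => (X n i : ℝ) ^ 2) (fun _ _ => sq_nonneg _) (mem_univ k.1))))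
      (tendsto_intCast_atTop_atTop.comp c))
  have := tendsto_finsetSum univ fun i _ => (tendsto_order.2 ⟨fun a ha => (h (i, false) (b _) (-a) (by linarith)).mono
    fun n c => by simpa [neg_div] using c, fun a ha => (h (i, true) (b _) a ha).mono fun n c => by simpa using c⟩ :
      Tendsto (fun n : ℕ => (X n i : ℝ) / n) atTop (𝓝 0)).mul_const (ℓ i)
  simpa [sum_div, div_mul_eq_mul_div] using this

end

end Pool.Agent.Results.MP_f4733e_pr.ZeroSpeed
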